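import Pool.Agent.N207.AX.Few
import Pool.Agent.N27.CF.FIB
import Pool.Agent.N227.CF.Up

/-!
# Independent functions at all conjugates of almost all points
-/

set_option autoImplicit false
set_option linter.unusedSectionVars false

open NumberField Filter

namespace Pool.Agent.N207.AX

open Pool.Agent.Y890.MV Pool.Agent.N207.GS Pool.Agent.N207.CF
open Pool.Agent.Y124 (Cov)

/-- a polynomial relation which holds everywhere over a nonempty open set is zero -/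
theorem eq_zero_of_all {X σ : Type} [Fintype X] {U : Set (X → ℂ)} (hUo : IsOpen U) (hne : U.Nonempty)
    (p : MvPolynomial σ (MvPolynomial X ℂ))
    (h : ∀ z ∈ U, ∀ a : σ → ℂ, p.eval₂ (MvPolynomial.eval z) a = 0) : p = 0 := by
  ext m : 1
  rw [MvPolynomial.coeff_zero]
  obtain ⟨x0, hx0⟩ := hne
  -- the coefficient vanishes on `U`
  have h1 : ∀ z ∈ U, MvPolynomial.eval z (p.coeff m) = 0 := by
    intro z hz
    have h2 : MvPolynomial.map (MvPolynomial.eval z) p = 0 := MvPolynomial.funext fun a => by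
      rw [MvPolynomial.eval_map, map_zero]
      exact h z hz a
    have h3 := congrArg (MvPolynomial.coeff m) h2
    rw [MvPolynomial.coeff_map, MvPolynomial.coeff_zero] at h3
    exact h3
  have han : AnalyticOnNhd ℂ (fun z : X → ℂ => MvPolynomial.eval z (p.coeff m)) Set.univ :=
    AnalyticOnNhd.eval_mvPolynomial _
  have h4 := han.eqOn_zero_of_preconnected_of_eventuallyEq_zero isPreconnected_univ (Set.mem_univ x0)
    (by filter_upwards [hUo.mem_nhds hx0] with z hz using h1 z hz)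
  exact MvPolynomial.funext fun z => by
    rw [map_zero]
    exact h4 (Set.mem_univ z)

/-- independent families in independent variables -/
theorem ind_prod {E X σ : Type} [Fintype E] [Fintype X] {U : E → Set (X → ℂ)} {f : E → σ → (X → ℂ) → ℂ}
    (hUo : ∀ e, IsOpen (U e)) (hne : ∀ e, (U e).Nonempty) (h : ∀ e, Ind (U e) (f e)) :
    Ind (prodU U) (prodF f) := by
  intro p hp
  refine eq_zero_of_all (prodU_open hUo) (prodU_ne hne) p fun z hz a => ?_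
  have h1 := N27.CF.fib E X σ U f (fun e j => z (e, j)) (fun e y => a (e, y)) (fun e => hz e) (fun e q hq => by
    rw [h e q hq]
    simp) p (fun w hw => hp w hw)
  exact h1


variable {K X σ : Type} [Field K] [NumberField K] [Fintype X]

/-- **The exceptional points**: some nonzero polynomial vanishes at the values at all conjugates -/
def ExcM (U : (K →+* ℂ) → Set (X → ℂ)) (f : (K →+* ℂ) → σ → (X → ℂ) → ℂ)
    (L : Type) [Field L] [NumberField L] (io : L →+* ℂ) (k : ℕ) (ξ : Fin k → ℂ) (T : ℝ) : Set (X → K) :=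
  {s | (∀ φ : K →+* ℂ, (fun j => φ (s j)) ∈ InnerM (U φ) k) ∧ ∃ R : MvPolynomial ((K →+* ℂ) × σ) ℂ,
    R ≠ 0 ∧ (∀ y, R.degreeOf y ≤ k) ∧
    (∀ m, ∃ c : Fin k → 𝓞 L, (∀ i (φ : L →+* ℂ), ‖φ (c i : L)‖ ≤ T ^ (k : ℝ)) ∧
      R.coeff m = ∑ i, ξ i * io (c i : L)) ∧
    MvPolynomial.eval (fun q : (K →+* ℂ) × σ => f q.1 q.2 fun j => q.1 (s j)) R = 0}

theorem conj_ind [Fintype σ] [DecidableEq X] [Nonempty X] [DecidableEq σ]
    {U : (K →+* ℂ) → Set (X → ℂ)} {f : (K →+* ℂ) → σ → (X → ℂ) → ℂ}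
    (hU : ∀ φ, IsPreconnected (U φ)) (hUo : ∀ φ, IsOpen (U φ)) (hne : ∀ φ, (U φ).Nonempty)
    (hf : ∀ φ i, AnalyticOnNhd ℂ (f φ i) (U φ)) (hI : ∀ φ, Ind (U φ) (f φ)) :
    ∃ (ω : ℝ → ℕ) (C T₀ : ℝ), 0 ≤ C ∧ Tendsto ω atTop atTop ∧ Monotone ω ∧ ∀ T, T₀ ≤ T → 0 < ω T ∧
      ∀ (L : Type) [Field L] [NumberField L], Module.finrank ℚ L ≤ ω T → ∀ io : L →+* ℂ,
        (∀ φ : K →+* ℂ, ∃ φ' : K →+* L, io.comp φ' = φ) → ∀ (ξ : Fin (ω T) → ℂ) (b : X → 𝓞 K),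
        (∀ j, b j ≠ 0 ∧ house (b j : K) ≤ T) →
        {a : X → 𝓞 K | (∀ j, house (a j : K) ≤ T) ∧
          (fun j => (a j : K) / (b j : K)) ∈ ExcM U f L io (ω T) ξ T}.Finite ∧
        ({a : X → 𝓞 K | (∀ j, house (a j : K) ≤ T) ∧
          (fun j => (a j : K) / (b j : K)) ∈ ExcM U f L io (ω T) ξ T}.ncard : ℝ) ≤
          C * T ^ ((Module.finrank ℚ K * Fintype.card X : ℝ) - 1 + 2 * ((ω T : ℝ)⁻¹)) := by
  classical
  obtain ⟨C, hC, hCU⟩ := N227.CF.up K X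
  have hU' := prodU_conn hU
  have hUo' := prodU_open hUo
  have hne' := prodU_ne hne
  have hF' := prodF_an (f := f) (U := U) hf
  obtain ⟨ω, T₀, h1, h2, h3⟩ := few_ind hU' hUo' hne' hF' (ind_prod hUo hne hI)
  refine ⟨ω, C, max T₀ 1, hC, h1, h2, fun T hT => ⟨(h3 T ((le_max_left _ _).trans hT)).1, ?_⟩⟩
  have hT1 : 1 ≤ T := (le_max_right _ _).trans hT
  have hTp : 0 < T := by linarith
  obtain ⟨hk, h4⟩ := h3 T ((le_max_left _ _).trans hT)
  generalize ω T = k at hk h4 ⊢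
  intro L _ _ hL io hemb ξ b hb
  obtain ⟨⟨Φs, hΦ1, hΦ2, hΦ3⟩, -, -⟩ := h4 L hL io ξ
  choose φ' hφ' using hemb
  -- the points
  have key : {a : X → 𝓞 K | (∀ j, house (a j : K) ≤ T) ∧
      (fun j => (a j : K) / (b j : K)) ∈ ExcM U f L io k ξ T} ⊆
      ⋃ Φ ∈ Φs, {a : X → 𝓞 K | (∀ j, house (a j : K) ≤ T) ∧
        MvPolynomial.eval (fun p => p.1 (a p.2 : K) / p.1 (b p.2 : K)) Φ = 0} := by
    rintro a ⟨ha, ha1, R, ha0, ha2, ha3, ha4⟩
    have hφs : ∀ (φ : K →+* ℂ) (x : K), io (φ' φ x) = φ x := fun φ x => RingHom.congr_fun (hφ' φ) x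
    let t : (K →+* ℂ) × X → L := fun p => φ' p.1 ((a p.2 : K) / (b p.2 : K))
    have ht : (fun p => io (t p)) = fun p : (K →+* ℂ) × X => p.1 ((a p.2 : K) / (b p.2 : K)) := by
      funext p
      exact hφs _ _
    have hmem : (fun p => io (t p)) ∈ (fun (s : (K →+* ℂ) × X → L) i => io (s i)) ''
        ExcN (prodU U) (prodF f) L io k ξ T := by
      refine ⟨t, ⟨?_, ?_, R, ha0, ha2, ha3, ?_⟩, rfl⟩
      · rintro ⟨φ, j⟩
        let ψ : 𝓞 K →+* 𝓞 L := RingOfIntegers.mapRingHom (φ' φ)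
        have hψ : ∀ x : 𝓞 K, ((ψ x : 𝓞 L) : L) = φ' φ (x : K) := fun x => rfl
        refine ⟨ψ (a j), ψ (b j), ?_, ?_, ?_, ?_⟩
        · intro h0
          have h5 := congrArg (fun x : 𝓞 L => (x : L)) h0
          simp only [hψ] at h5
          have h6 : φ' φ (b j : K) = 0 := h5
          rw [map_eq_zero] at h6
          exact (hb j).1 (RingOfIntegers.coe_eq_zero_iff.1 h6)
        · rw [hψ]
          exact house_le_of_map _ _ (ha j)
        · rw [hψ]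
          exact house_le_of_map _ _ (hb j).2
        · rw [hψ, hψ]
          exact map_div₀ _ _ _
      · rw [ht]
        exact innerM_prod fun φ => ha1 φ
      · rw [ht]
        exact ha4
    obtain ⟨Φ, hΦ, hΦ0⟩ := hΦ3 _ hmem
    rw [Set.mem_iUnion₂]
    refine ⟨Φ, hΦ, ha, ?_⟩
    rw [ht] at hΦ0
    rw [← hΦ0]
    congr 2
    funext p
    rw [map_div₀]
  have hfinΦ : ∀ Φ ∈ Φs, {a : X → 𝓞 K | (∀ j, house (a j : K) ≤ T) ∧
      MvPolynomial.eval (fun p => p.1 (a p.2 : K) / p.1 (b p.2 : K)) Φ = 0}.Finite := fun Φ hΦ =>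
    (hCU Φ (hΦ2 Φ hΦ).1 T hT1 b fun j => (hb j).1).1
  have hfin := Set.Finite.biUnion (Finset.finite_toSet Φs) hfinΦ
  refine ⟨hfin.subset key, ?_⟩
  have h5 : ({a : X → 𝓞 K | (∀ j, house (a j : K) ≤ T) ∧
      (fun j => (a j : K) / (b j : K)) ∈ ExcM U f L io k ξ T}.ncard : ℝ) ≤
      ∑ Φ ∈ Φs, ({a : X → 𝓞 K | (∀ j, house (a j : K) ≤ T) ∧
        MvPolynomial.eval (fun p => p.1 (a p.2 : K) / p.1 (b p.2 : K)) Φ = 0}.ncard : ℝ) := by
    have h6 := (Set.ncard_le_ncard key hfin).trans (Finset.set_ncard_biUnion_le _ _)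
    exact_mod_cast h6
  refine h5.trans ?_
  set N := Module.finrank ℚ K * Fintype.card X with hN
  have hN1 : 1 ≤ N := Nat.mul_pos Module.finrank_pos Fintype.card_pos
  have h7 : ∀ Φ ∈ Φs, ({a : X → 𝓞 K | (∀ j, house (a j : K) ≤ T) ∧
      MvPolynomial.eval (fun p => p.1 (a p.2 : K) / p.1 (b p.2 : K)) Φ = 0}.ncard : ℝ) ≤
      C * T ^ ((k : ℝ)⁻¹) * T ^ (N - 1) := by
    intro Φ hΦ
    refine (hCU Φ (hΦ2 Φ hΦ).1 T hT1 b fun j => (hb j).1).2.trans ?_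
    refine mul_le_mul_of_nonneg_right (mul_le_mul_of_nonneg_left ?_ hC) (by positivity)
    refine le_trans ?_ (Nat.floor_le (by positivity : (0 : ℝ) ≤ T ^ ((k : ℝ)⁻¹)))
    exact_mod_cast (hΦ2 Φ hΦ).2
  refine (Finset.sum_le_sum h7).trans ?_
  rw [Finset.sum_const, nsmul_eq_mul]
  have h8 : (Φs.card : ℝ) ≤ T ^ ((k : ℝ)⁻¹) := by
    refine le_trans ?_ (Nat.floor_le (by positivity : (0 : ℝ) ≤ T ^ ((k : ℝ)⁻¹)))
    exact_mod_cast hΦ1
  have h9 : (T : ℝ) ^ ((Module.finrank ℚ K * Fintype.card X : ℝ) - 1 + 2 * ((k : ℝ)⁻¹)) =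
      T ^ ((k : ℝ)⁻¹) * T ^ ((k : ℝ)⁻¹) * T ^ (N - 1) := by
    rw [← Real.rpow_natCast T (N - 1), ← Real.rpow_add hTp, ← Real.rpow_add hTp]
    congr 1
    rw [Nat.cast_sub hN1, hN]
    push_cast
    ring
  rw [h9]
  calc (Φs.card : ℝ) * (C * T ^ ((k : ℝ)⁻¹) * T ^ (N - 1)) ≤
        T ^ ((k : ℝ)⁻¹) * (C * T ^ ((k : ℝ)⁻¹) * T ^ (N - 1)) := mul_le_mul_of_nonneg_right h8 (by positivity)
    _ = _ := by ring

end Pool.Agent.N207.AX
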