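import Pool.Agent.N207.AX.Stm

/-!
# Elliptic functions of functions of several variables
-/

set_option autoImplicit false
set_option linter.unusedSectionVars false

namespace Pool.Agent.N207.AX

variable {X : Type}

theorem zeta_an (L : PeriodPair) {z : ℂ} (hz : z ∉ L.lattice) : AnalyticAt ℂ (H667R3.zeta L) z := by
  have h1 : IsOpen ((L.lattice : Set ℂ)ᶜ) := L.isClosed_lattice.isOpen_compl
  obtain ⟨ε, hε, hb⟩ := Metric.isOpen_iff.1 h1 z hz
  have hL : Y776.Fam.LF (Metric.ball z ε) (fun _ => L) :=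
    ⟨Metric.isOpen_ball, (convex_ball z ε).isPreconnected, analyticOnNhd_const, analyticOnNhd_const⟩
  exact hL.an_zeta (p := fun z => z) analyticOnNhd_id (fun w hw => hb hw) z (Metric.mem_ball_self hε)

/-- the functions `u_i`, `ζ(u_i)`, `℘(u_i)` -/
noncomputable def yq {E : Type} {n q : ℕ} (Λ : Fin q → PeriodPair) (ty : Fin n → Fin q) (u : Fin n → E → ℂ) :
    Fin n ⊕ (Fin n ⊕ Fin n) → E → ℂ :=
  Sum.elim u (Sum.elim (fun i z => H667R3.zeta (Λ (ty i)) (u i z)) fun i z => (Λ (ty i)).weierstrassP (u i z))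

theorem yq_an [Fintype X] {n q : ℕ} {Λ : Fin q → PeriodPair} {ty : Fin n → Fin q} {u : Fin n → (X → ℂ) → ℂ}
    {U : Set (X → ℂ)} (hu : ∀ i, AnalyticOnNhd ℂ (u i) U) (hn : ∀ i, ∀ z ∈ U, u i z ∉ (Λ (ty i)).lattice)
    (a : Fin n ⊕ (Fin n ⊕ Fin n)) : AnalyticOnNhd ℂ (yq Λ ty u a) U := by
  rcases a with i | i | i
  · exact hu i
  · intro z hz
    exact (zeta_an (Λ (ty i)) (hn i z hz)).comp (hu i z hz)
  · intro z hz
    exact ((Λ (ty i)).analyticOnNhd_weierstrassP _ (hn i z hz)).comp (hu i z hz)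

theorem ye_an [Fintype X] {n q s : ℕ} {Λ : Fin q → PeriodPair} {ty : Fin n → Fin q} {u : Fin n → (X → ℂ) → ℂ}
    {l : Fin s → (X → ℂ) → ℂ} {U : Set (X → ℂ)} (hu : ∀ i, AnalyticOnNhd ℂ (u i) U)
    (hn : ∀ i, ∀ z ∈ U, u i z ∉ (Λ (ty i)).lattice) (hl : ∀ k, AnalyticOnNhd ℂ (l k) U)
    (a : Y776.Cv.Nf n s) : AnalyticOnNhd ℂ (ye Λ ty u l a) U := by
  rcases a with k | k | a
  · exact hl k
  · exact fun z hz => (hl k z hz).cexp
  · exact yq_an hu hn a

/-- **Ax's theorem for elliptic curves, several variables** -/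
theorem ell_ind (hE : StmEll) [Fintype X] {q n : ℕ} {U : Set (X → ℂ)} {Λ : Fin q → PeriodPair} {ty : Fin n → Fin q}
    {u : Fin n → (X → ℂ) → ℂ} (hU : IsOpen U) (hc : IsPreconnected U) (hne : U.Nonempty)
    (hN : ∀ c c', c ≠ c' → ∀ α : ℂ, (∀ w ∈ (Λ c).lattice, α * w ∈ (Λ c').lattice) → α = 0)
    (hu : ∀ i, AnalyticOnNhd ℂ (u i) U) (hn : ∀ i, ∀ z ∈ U, u i z ∉ (Λ (ty i)).lattice)
    (hi : ∀ (c : Fin q) (a : Fin n → ℂ) (b : ℂ), (∀ i, ∀ w ∈ (Λ c).lattice, a i * w ∈ (Λ c).lattice) →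
      (∀ i, ty i ≠ c → a i = 0) → (∀ z ∈ U, ∑ i, a i * u i z = b) → a = 0) :
    ∃ e : Fin (2 * n) → Fin n ⊕ (Fin n ⊕ Fin n), Function.Injective e ∧ Ind U (fun k => yq Λ ty u (e k)) := by
  obtain ⟨e, he, hI⟩ := hE X q n 0 U Λ ty u (Fin.elim0 : Fin 0 → (X → ℂ) → ℂ) hU hc hne hN hu hn hi
    (fun k => k.elim0) (fun m _ _ => funext fun k => k.elim0)
  let f : Y776.Cv.Nf n 0 → Fin n ⊕ (Fin n ⊕ Fin n) := fun a => match a with
    | Sum.inl k => k.elim0
    | Sum.inr (Sum.inl k) => k.elim0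
    | Sum.inr (Sum.inr a) => a
  have hf : Function.Injective f := by
    rintro (a | a | a) (b | b | b) hab
    all_goals first
      | exact a.elim0
      | exact b.elim0
      | exact congrArg _ (congrArg _ hab)
  have hv : ∀ a, ye Λ ty u (Fin.elim0 : Fin 0 → (X → ℂ) → ℂ) a = yq Λ ty u (f a) := by
    rintro (a | a | a)
    · exact a.elim0
    · exact a.elim0
    · rfl
  have h0 : 0 + 2 * n = 2 * n := by ring
  have h1 : Ind U (fun k => yq Λ ty u (f (e k))) := by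
    have h2 : (fun k => yq Λ ty u (f (e k))) =
        fun k => ye Λ ty u (Fin.elim0 : Fin 0 → (X → ℂ) → ℂ) (e k) := by
      funext k
      rw [hv]
    rw [h2]
    exact hI
  refine ⟨fun k => f (e (Fin.cast h0.symm k)), fun a b hab => ?_, ?_⟩
  · have h3 := he (hf hab)
    exact Fin.cast_injective _ h3
  · intro p hp
    have h4 := h1 (MvPolynomial.rename (Fin.cast h0.symm) p) fun z hz => by
      rw [MvPolynomial.eval₂_rename]
      exact hp z hz
    exact (MvPolynomial.rename_injective _ (Fin.cast_injective _)) (by rw [h4, map_zero])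

end Pool.Agent.N207.AX
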