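import Pool.Agent.N207.AX.Stm

/-!
# Consequences of Ax's theorem in several variables
-/

set_option autoImplicit false
set_option linter.unusedSectionVars false

namespace Pool.Agent.N207.AX

variable {X : Type}

/-- renaming -/
theorem Ind.comp {σ τ : Type} {U : Set (X → ℂ)} {f : σ → (X → ℂ) → ℂ} (h : Ind U f) {g : τ → σ}
    (hg : Function.Injective g) : Ind U (fun k => f (g k)) := by
  intro p hp
  have h1 : MvPolynomial.rename g p = 0 := h _ fun z hz => by
    rw [MvPolynomial.eval₂_rename]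
    exact hp z hz
  exact (MvPolynomial.rename_injective g hg) (by rw [h1, map_zero])

/-- an independent function does not satisfy a polynomial equation over the rational functions -/
theorem Ind.not_algebraic {σ : Type} {U : Set (X → ℂ)} {f : σ → (X → ℂ) → ℂ} (h : Ind U f) (j : σ)
    {Q : Polynomial (MvPolynomial X ℂ)} (hQ : Q ≠ 0) :
    ¬ ∀ z ∈ U, Q.eval₂ (MvPolynomial.eval z) (f j z) = 0 := by
  intro hz
  have h1 : Q.eval₂ (MvPolynomial.C (σ := σ)) (MvPolynomial.X j) = 0 := h _ fun z hzU => by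
    have h2 : (Q.eval₂ (MvPolynomial.C (σ := σ)) (MvPolynomial.X j)).eval₂ (MvPolynomial.eval z)
        (fun i => f i z) = Q.eval₂ (MvPolynomial.eval z) (f j z) := by
      have h3 := Polynomial.hom_eval₂ Q (MvPolynomial.C (σ := σ) (R := MvPolynomial X ℂ))
        (MvPolynomial.eval₂Hom (MvPolynomial.eval z) fun i => f i z) (MvPolynomial.X j)
      rw [MvPolynomial.coe_eval₂Hom] at h3
      rw [h3]
      congr 1
      · ext q <;> simp
      · simp
    rw [h2]
    exact hz z hzU
  apply hQ
  -- the map is injective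
  have h4 : Function.Injective (fun Q : Polynomial (MvPolynomial X ℂ) =>
      Q.eval₂ (MvPolynomial.C (σ := σ)) (MvPolynomial.X j)) := by
    intro Q₁ Q₂ h12
    have h5 : ∀ Q : Polynomial (MvPolynomial X ℂ),
        (Q.eval₂ (MvPolynomial.C (σ := σ)) (MvPolynomial.X j)).eval₂ (Polynomial.C)
          (fun _ => (Polynomial.X : Polynomial (MvPolynomial X ℂ))) = Q := by
      intro Q
      have h3 := Polynomial.hom_eval₂ Q (MvPolynomial.C (σ := σ) (R := MvPolynomial X ℂ))
        (MvPolynomial.eval₂Hom (Polynomial.C) fun _ => (Polynomial.X : Polynomial (MvPolynomial X ℂ)))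
        (MvPolynomial.X j)
      rw [MvPolynomial.coe_eval₂Hom] at h3
      rw [h3]
      have h6 : (MvPolynomial.eval₂Hom (Polynomial.C) fun _ : σ =>
          (Polynomial.X : Polynomial (MvPolynomial X ℂ))).comp MvPolynomial.C = Polynomial.C := by
        ext q <;> simp
      rw [h6]
      simp [Polynomial.eval₂_C_X]
    rw [← h5 Q₁, ← h5 Q₂]
    exact congrArg _ h12
  exact h4 (by simpa using h1)

/-- a maximal independent family consists of the functions which are not algebraic -/
theorem exch {N : Type} {U : Set (X → ℂ)} {f : N → (X → ℂ) → ℂ} {r : ℕ} {e b : Fin r → N}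
    (he : Function.Injective e) (hI : Ind U (fun k => f (e k)))
    (hb : ∀ i, (∃ j, b j = i) ∨ ∃ Q : Polynomial (MvPolynomial X ℂ), Q ≠ 0 ∧
      ∀ z ∈ U, Q.eval₂ (MvPolynomial.eval z) (f i z) = 0) : Ind U (fun k => f (b k)) := by
  have h1 : ∀ j, ∃ i, b i = e j := by
    intro j
    rcases hb (e j) with h | ⟨Q, hQ, h⟩
    · exact h
    · exact absurd h (hI.not_algebraic j hQ)
  choose π hπ using h1
  have h2 : Function.Injective π := by
    intro i j hij
    apply he
    rw [← hπ, ← hπ, hij]
  have h3 : Function.Bijective π := Finite.injective_iff_bijective.1 h2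
  obtain ⟨ρ, hρ1, hρ2⟩ := Function.bijective_iff_has_inverse.1 h3
  have h4 : ∀ k, b k = e (ρ k) := by
    intro k
    rw [← hπ, hρ2]
  have h5 := hI.comp (g := ρ) hρ2.injective
  have h6 : (fun k => f (e (ρ k))) = fun k => f (b k) := by
    funext k
    rw [h4]
  rw [h6] at h5
  exact h5

/-- **Ax's theorem for exponentials, several variables** -/
theorem exp_ind (hE : StmEll) [Fintype X] {n : ℕ} {U : Set (X → ℂ)} {t : Fin n → (X → ℂ) → ℂ} (hU : IsOpen U)
    (hc : IsPreconnected U) (hne : U.Nonempty) (ht : ∀ k, AnalyticOnNhd ℂ (t k) U)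
    (hi : ∀ (m : Fin n → ℤ) (b : ℂ), (∀ z ∈ U, ∑ k, (m k : ℂ) * t k z = b) → m = 0) :
    ∃ e : Fin n → Fin n ⊕ Fin n, Function.Injective e ∧
      Ind U (fun k z => Sum.elim (fun k => t k z) (fun k => Complex.exp (t k z)) (e k)) := by
  obtain ⟨e, he, hI⟩ := hE X 0 0 n U (Fin.elim0 : Fin 0 → PeriodPair) (Fin.elim0 : Fin 0 → Fin 0)
    (Fin.elim0 : Fin 0 → (X → ℂ) → ℂ) t hU hc hne (fun c => c.elim0) (fun i => i.elim0) (fun i => i.elim0)
    (fun c => c.elim0) ht hi
  let f : Y776.Cv.Nf 0 n → Fin n ⊕ Fin n := fun a => match a with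
    | Sum.inl k => Sum.inl k
    | Sum.inr (Sum.inl k) => Sum.inr k
    | Sum.inr (Sum.inr (Sum.inl i)) => i.elim0
    | Sum.inr (Sum.inr (Sum.inr (Sum.inl i))) => i.elim0
    | Sum.inr (Sum.inr (Sum.inr (Sum.inr i))) => i.elim0
  have hf : Function.Injective f := by
    rintro (a | a | a | a | a) (b | b | b | b | b) hab
    all_goals first
      | exact a.elim0
      | exact b.elim0
      | simpa [f] using hab
  have hv : ∀ (z : X → ℂ) a, ye (Fin.elim0 : Fin 0 → PeriodPair) (Fin.elim0 : Fin 0 → Fin 0)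
      (Fin.elim0 : Fin 0 → (X → ℂ) → ℂ) t a z =
      Sum.elim (fun k => t k z) (fun k => Complex.exp (t k z)) (f a) := by
    rintro z (a | a | a | a | a)
    · rfl
    · rfl
    all_goals exact a.elim0
  refine ⟨fun k : Fin n => f (e k), fun a b hab => he (hf hab), ?_⟩
  have h2 : (fun k z => Sum.elim (fun k => t k z) (fun k => Complex.exp (t k z)) (f (e k))) =
      fun (k : Fin n) => ye (Fin.elim0 : Fin 0 → PeriodPair) (Fin.elim0 : Fin 0 → Fin 0)
        (Fin.elim0 : Fin 0 → (X → ℂ) → ℂ) t (e k) := by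
    funext k z
    exact (hv z (e k)).symm
  change Ind U (fun k z => Sum.elim (fun k => t k z) (fun k => Complex.exp (t k z)) (f (e k)))
  rw [h2]
  exact hI

end Pool.Agent.N207.AX
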