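import Pool.Agent.N207.AX.Stm
import Pool.Agent.N207.CF.Main

/-!
# Independent functions at almost all points
-/

set_option autoImplicit false
set_option linter.unusedSectionVars false

open NumberField Filter

namespace Pool.Agent.N207.AX

open Pool.Agent.Y890.MV Pool.Agent.N207.GS Pool.Agent.N207.CF
open Pool.Agent.Y124 (Cov)

/-- the whole space is irreducible -/
theorem irr_univ {σ : Type} : GS.Irr (Set.univ : Set (σ → ℂ)) := by
  intro P Q h
  have h1 : P * Q = 0 := MvPolynomial.funext fun a => by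
    rw [map_mul, map_zero]
    exact h a trivial
  rcases mul_eq_zero.1 h1 with h2 | h2
  · exact Or.inl fun a _ => by rw [h2, map_zero]
  · exact Or.inr fun a _ => by rw [h2, map_zero]

/-- the points at which some nonzero polynomial vanishes -/
def ExcN {X σ : Type} [Fintype X] (U : Set (X → ℂ)) (f : σ → (X → ℂ) → ℂ) (K : Type) [Field K] [NumberField K]
    (io : K →+* ℂ) (k : ℕ) (ξ : Fin k → ℂ) (T : ℝ) : Set (X → K) :=
  {s | (∀ i, Y120.HtLe K T (s i)) ∧ (fun i => io (s i)) ∈ InnerM U k ∧ ∃ R : MvPolynomial σ ℂ, R ≠ 0 ∧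
    (∀ y, R.degreeOf y ≤ k) ∧
    (∀ m, ∃ c : Fin k → 𝓞 K, (∀ i (φ : K →+* ℂ), ‖φ (c i : K)‖ ≤ T ^ (k : ℝ)) ∧
      R.coeff m = ∑ i, ξ i * io (c i : K)) ∧
    MvPolynomial.eval (fun y => f y fun i => io (s i)) R = 0}

/-- the fibre is the whole space if the functions are independent -/
theorem fib_univ {X σ : Type} {U : Set (X → ℂ)} {f : σ → (X → ℂ) → ℂ} (h : Ind U f) (x : X → ℂ) :
    Set.univ ⊆ Fib U f x := by
  intro a _ p hp
  have h1 : p = 0 := h p fun z hz => by
    have h2 := hp z hz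
    rw [evM_eq] at h2
    exact h2
  rw [h1]
  simp [evX]

theorem few_ind {X σ : Type} [Fintype X] [DecidableEq X] [Nonempty X] [Fintype σ] [DecidableEq σ]
    {U : Set (X → ℂ)} {f : σ → (X → ℂ) → ℂ} (hU : IsPreconnected U) (hUo : IsOpen U) (hne : U.Nonempty)
    (hf : ∀ i, AnalyticOnNhd ℂ (f i) U) (h : Ind U f) :
    Few (X := X) fun K _ _ io k ξ T => ExcN U f K io k ξ T := by
  refine (comp_few hU hUo hne hf).mono fun K _ _ io k ξ T => ?_
  rintro s ⟨h1, h2, R, h0, h3, h4, h5⟩
  obtain ⟨a, ha⟩ : ∃ a, MvPolynomial.eval a R ≠ 0 := by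
    by_contra hcon
    push Not at hcon
    exact h0 (MvPolynomial.funext fun a => by rw [hcon a, map_zero])
  choose c hc hc' using h4
  refine ⟨h1, h2, fun l => c (Finsupp.equivFunOnFinite.symm fun y => (l y : ℕ)), fun l i φ => hc _ i φ, ?_,
    Set.univ, irr_univ, trivial, fib_univ h _, a, trivial, ?_⟩
  · rw [← h5, ← Y119.PLM.sum_expM h3]
    refine Finset.sum_congr rfl fun l _ => ?_
    rw [hc']
  · rw [← Y119.PLM.sum_expM h3] at ha
    intro h
    apply ha
    rw [← h]
    refine Finset.sum_congr rfl fun l _ => ?_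
    rw [hc']

end Pool.Agent.N207.AX
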