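import Pool.Agent.N207.AX.Exp

/-!
# Algebraic functions and logarithms of algebraic functions
-/

set_option autoImplicit false
set_option linter.unusedSectionVars false

namespace Pool.Agent.N207.AX

variable {X : Type}

/-- the ring of the functions on `U` is an algebra over the polynomials in the coordinates -/
@[reducible] noncomputable def fnAlg (U : Set (X → ℂ)) : Algebra (MvPolynomial X ℂ) (U → ℂ) :=
  (RingHom.pi fun z : U => MvPolynomial.eval (z : X → ℂ)).toAlgebra

theorem alg_iff {U : Set (X → ℂ)} {f : (X → ℂ) → ℂ} :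
    (∃ Q : Polynomial (MvPolynomial X ℂ), Q ≠ 0 ∧ ∀ z ∈ U, Q.eval₂ (MvPolynomial.eval z) (f z) = 0) ↔
      @IsAlgebraic (MvPolynomial X ℂ) (U → ℂ) _ _ (fnAlg U) (fun z : U => f z) := by
  let _ := fnAlg U
  have h1 : ∀ (Q : Polynomial (MvPolynomial X ℂ)) (z : U), Polynomial.aeval (fun z : U => f z) Q z =
      Q.eval₂ (MvPolynomial.eval (z : X → ℂ)) (f z) := by
    intro Q z
    have h2 := Polynomial.hom_eval₂ Q (algebraMap (MvPolynomial X ℂ) (U → ℂ)) (Pi.evalRingHom (fun _ : U => ℂ) z)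
      (fun z : U => f z)
    exact h2
  constructor
  · rintro ⟨Q, hQ, h⟩
    refine ⟨Q, hQ, funext fun z => ?_⟩
    rw [h1]
    exact h z z.2
  · rintro ⟨Q, hQ, h⟩
    refine ⟨Q, hQ, fun z hz => ?_⟩
    rw [← h1 Q ⟨z, hz⟩, h]
    rfl

/-- combinations with integral coefficients of algebraic functions -/
theorem alg_sum {U : Set (X → ℂ)} {σ : Type} [Fintype σ] {f : σ → (X → ℂ) → ℂ}
    (h : ∀ i, ∃ Q : Polynomial (MvPolynomial X ℂ), Q ≠ 0 ∧ ∀ z ∈ U, Q.eval₂ (MvPolynomial.eval z) (f i z) = 0)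
    (m : σ → ℤ) (b : ℂ) :
    ∃ Q : Polynomial (MvPolynomial X ℂ), Q ≠ 0 ∧
      ∀ z ∈ U, Q.eval₂ (MvPolynomial.eval z) (b - ∑ i, (m i : ℂ) * f i z) = 0 := by
  classical
  let _ := fnAlg U
  rw [alg_iff]
  have h1 : ∀ s : Finset σ, IsAlgebraic (MvPolynomial X ℂ) (fun z : U => b - ∑ i ∈ s, (m i : ℂ) * f i z) := by
    intro s
    induction s using Finset.induction_on with
    | empty =>
      have h2 : (fun z : U => b - ∑ i ∈ (∅ : Finset σ), (m i : ℂ) * f i z) =
          algebraMap (MvPolynomial X ℂ) (U → ℂ) (MvPolynomial.C b) := by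
        funext z
        rw [Finset.sum_empty, sub_zero]
        exact (MvPolynomial.eval_C (f := (z : X → ℂ)) b).symm
      rw [h2]
      exact isAlgebraic_algebraMap _
    | insert a s ha ih =>
      have h2 : (fun z : U => b - ∑ i ∈ insert a s, (m i : ℂ) * f i z) =
          (fun z : U => b - ∑ i ∈ s, (m i : ℂ) * f i z) +
            algebraMap (MvPolynomial X ℂ) (U → ℂ) (MvPolynomial.C (-(m a : ℂ))) * (fun z : U => f a z) := by
        funext z
        have h3 : algebraMap (MvPolynomial X ℂ) (U → ℂ) (MvPolynomial.C (-(m a : ℂ))) z = -(m a : ℂ) :=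
          MvPolynomial.eval_C (f := (z : X → ℂ)) _
        rw [Pi.add_apply, Pi.mul_apply, h3, Finset.sum_insert ha]
        ring
      rw [h2]
      exact ih.add ((isAlgebraic_algebraMap _).mul (alg_iff.1 (h a)))
  exact h1 Finset.univ

/-- combinations of independent functions are not algebraic -/
theorem Ind.comb {n : ℕ} {U : Set (X → ℂ)} {l : Fin n → (X → ℂ) → ℂ} (h : Ind U l) (m : Fin n → ℤ)
    {Q : Polynomial (MvPolynomial X ℂ)} (hQ : Q ≠ 0)
    (hz : ∀ z ∈ U, Q.eval₂ (MvPolynomial.eval z) (∑ k, (m k : ℂ) * l k z) = 0) : m = 0 := by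
  classical
  by_contra hm
  obtain ⟨j, hj⟩ : ∃ j, m j ≠ 0 := by
    by_contra hcon
    push Not at hcon
    exact hm (funext hcon)
  let S : MvPolynomial (Fin n) (MvPolynomial X ℂ) := ∑ k, MvPolynomial.C (MvPolynomial.C (m k : ℂ)) * MvPolynomial.X k
  have h1 : Q.eval₂ (MvPolynomial.C (σ := Fin n)) S = 0 := h _ fun z hzU => by
    have h3 := Polynomial.hom_eval₂ Q (MvPolynomial.C (σ := Fin n) (R := MvPolynomial X ℂ))
      (MvPolynomial.eval₂Hom (MvPolynomial.eval z) fun i => l i z) S
    rw [MvPolynomial.coe_eval₂Hom] at h3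
    rw [h3]
    have h4 : MvPolynomial.eval₂ (MvPolynomial.eval z) (fun i => l i z) S = ∑ k, (m k : ℂ) * l k z := by
      rw [← MvPolynomial.coe_eval₂Hom, map_sum]
      refine Finset.sum_congr rfl fun k _ => ?_
      rw [map_mul, MvPolynomial.eval₂Hom_C, MvPolynomial.eval₂Hom_X', MvPolynomial.eval_C]
    have h5 : (MvPolynomial.eval₂Hom (MvPolynomial.eval z) fun i => l i z).comp
        (MvPolynomial.C (σ := Fin n) (R := MvPolynomial X ℂ)) = MvPolynomial.eval z := by
      ext q <;> simp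
    rw [h4, h5]
    exact hz z hzU
  -- substitute
  let g : Fin n → Polynomial (MvPolynomial X ℂ) := fun k =>
    if k = j then Polynomial.C (MvPolynomial.C ((m j : ℂ)⁻¹)) * Polynomial.X else 0
  have h6 : MvPolynomial.aeval g S = (Polynomial.X : Polynomial (MvPolynomial X ℂ)) := by
    rw [map_sum, Finset.sum_eq_single j]
    · rw [map_mul, MvPolynomial.aeval_X, MvPolynomial.algHom_C]
      simp only [g, if_true]
      rw [← mul_assoc, Polynomial.algebraMap_eq, ← Polynomial.C_mul, ← MvPolynomial.C_mul,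
        mul_inv_cancel₀ (by exact_mod_cast hj), MvPolynomial.C_1, Polynomial.C_1, one_mul]
    · intro k _ hk
      rw [map_mul, MvPolynomial.aeval_X]
      simp only [g, if_neg hk, mul_zero]
    · exact fun hn => absurd (Finset.mem_univ j) hn
  have h7 := congrArg (MvPolynomial.aeval g) h1
  rw [map_zero] at h7
  have h8 := Polynomial.hom_eval₂ Q (MvPolynomial.C (σ := Fin n) (R := MvPolynomial X ℂ))
    ((MvPolynomial.aeval g : MvPolynomial (Fin n) (MvPolynomial X ℂ) →ₐ[MvPolynomial X ℂ]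
      Polynomial (MvPolynomial X ℂ)) : MvPolynomial (Fin n) (MvPolynomial X ℂ) →+* Polynomial (MvPolynomial X ℂ)) S
  have h9 : ((MvPolynomial.aeval g : MvPolynomial (Fin n) (MvPolynomial X ℂ) →ₐ[MvPolynomial X ℂ]
      Polynomial (MvPolynomial X ℂ)) : MvPolynomial (Fin n) (MvPolynomial X ℂ) →+*
        Polynomial (MvPolynomial X ℂ)).comp MvPolynomial.C = Polynomial.C :=
    RingHom.ext fun q => (MvPolynomial.algHom_C (MvPolynomial.aeval g) q).trans
      (Polynomial.algebraMap_eq (R := MvPolynomial X ℂ) ▸ rfl)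
  rw [h9] at h8
  apply hQ
  have h10 : Q = Q.eval₂ Polynomial.C Polynomial.X := (Polynomial.eval₂_C_X).symm
  rw [h10, ← h6]
  exact h8.symm.trans h7

/-- **Exponentials of algebraic functions and logarithms of algebraic functions** are algebraically independent. -/
theorem gelfond_ind (hE : StmEll) [Fintype X] {a n : ℕ} {U : Set (X → ℂ)} {α : Fin a → (X → ℂ) → ℂ}
    {l : Fin n → (X → ℂ) → ℂ} (hU : IsOpen U) (hc : IsPreconnected U) (hne : U.Nonempty)
    (hα : ∀ k, AnalyticOnNhd ℂ (α k) U) (hl : ∀ k, AnalyticOnNhd ℂ (l k) U)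
    (aα : ∀ i, ∃ Q : Polynomial (MvPolynomial X ℂ), Q ≠ 0 ∧ ∀ z ∈ U, Q.eval₂ (MvPolynomial.eval z) (α i z) = 0)
    (al : ∀ i, ∃ Q : Polynomial (MvPolynomial X ℂ), Q ≠ 0 ∧
      ∀ z ∈ U, Q.eval₂ (MvPolynomial.eval z) (Complex.exp (l i z)) = 0)
    (iα : ∀ (m : Fin a → ℤ) (b : ℂ), (∀ z ∈ U, ∑ k, (m k : ℂ) * α k z = b) → m = 0)
    (il : ∀ (m : Fin n → ℤ) (b : ℂ), (∀ z ∈ U, ∑ k, (m k : ℂ) * l k z = b) → m = 0) :
    Ind U (fun y z => Sum.elim (fun i => Complex.exp (α i z)) (fun i => l i z) y : Fin a ⊕ Fin n → (X → ℂ) → ℂ) := by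
  classical
  -- the logarithms are independent
  have hL : Ind U l := by
    obtain ⟨e, he, hI⟩ := exp_ind hE hU hc hne hl il
    refine exch (f := fun y z => Sum.elim (fun k => l k z) (fun k => Complex.exp (l k z)) y)
      (b := Sum.inl) he hI fun i => ?_
    rcases i with i | i
    · exact Or.inl ⟨i, rfl⟩
    · exact Or.inr (al i)
  let t : Fin (a + n) → (X → ℂ) → ℂ := Fin.append α l
  have ht : ∀ k, AnalyticOnNhd ℂ (t k) U := by
    intro k
    refine Fin.addCases (fun i => ?_) (fun i => ?_) k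
    · simp only [t, Fin.append_left]
      exact hα i
    · simp only [t, Fin.append_right]
      exact hl i
  have it : ∀ (m : Fin (a + n) → ℤ) (b : ℂ), (∀ z ∈ U, ∑ k, (m k : ℂ) * t k z = b) → m = 0 := by
    intro m b hm
    have h1 : ∀ z ∈ U, ∑ k, (m (Fin.natAdd a k) : ℂ) * l k z = b - ∑ i, (m (Fin.castAdd n i) : ℂ) * α i z := by
      intro z hz
      have h2 := hm z hz
      rw [Fin.sum_univ_add] at h2
      simp only [t, Fin.append_left, Fin.append_right] at h2
      rw [← h2]
      ring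
    obtain ⟨Q, hQ, hQz⟩ := alg_sum aα (fun i => m (Fin.castAdd n i)) b
    have h3 : (fun k => m (Fin.natAdd a k)) = 0 := hL.comb _ hQ fun z hz => by
      rw [h1 z hz]
      exact hQz z hz
    have h4 : (fun i => m (Fin.castAdd n i)) = 0 := iα _ b fun z hz => by
      have h5 := h1 z hz
      have h6 : ∑ k, (m (Fin.natAdd a k) : ℂ) * l k z = 0 :=
        Finset.sum_eq_zero fun k _ => by rw [congrFun h3 k]; simp
      rw [h6] at h5
      linear_combination h5
    funext k
    refine Fin.addCases (fun i => ?_) (fun i => ?_) k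
    · exact congrFun h4 i
    · exact congrFun h3 i
  obtain ⟨e, he, hI⟩ := exp_ind hE hU hc hne ht it
  have h1 := exch (f := fun y z => Sum.elim (fun k => t k z) (fun k => Complex.exp (t k z)) y)
    (b := fun k => Fin.addCases (fun i => Sum.inr (Fin.castAdd n i)) (fun i => Sum.inl (Fin.natAdd a i)) k) he hI (by
      rintro (k | k)
      · refine Fin.addCases (fun i => ?_) (fun i => ?_) k
        · right
          simp only [Sum.elim_inl, t, Fin.append_left]
          exact aα i
        · exact Or.inl ⟨Fin.natAdd a i, by simp⟩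
      · refine Fin.addCases (fun i => ?_) (fun i => ?_) k
        · exact Or.inl ⟨Fin.castAdd n i, by simp⟩
        · right
          simp only [Sum.elim_inr, t, Fin.append_right]
          exact al i)
  have h2 := h1.comp (g := finSumFinEquiv (m := a) (n := n)) finSumFinEquiv.injective
  have h3 : (fun (k : Fin a ⊕ Fin n) (z : X → ℂ) => Sum.elim (fun k => t k z) (fun k => Complex.exp (t k z))
      (Fin.addCases (motive := fun _ => Fin (a + n) ⊕ Fin (a + n)) (fun i => Sum.inr (Fin.castAdd n i))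
        (fun i => Sum.inl (Fin.natAdd a i)) (finSumFinEquiv k))) =
      fun y z => Sum.elim (fun i => Complex.exp (α i z)) (fun i => l i z) y := by
    funext k z
    rcases k with i | i
    · simp [t]
    · simp [t]
  rw [h3] at h2
  exact h2

end Pool.Agent.N207.AX
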