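import Pool.Agent.Y776.Cv.Fix
import Pool.Agent.Y776.Cv.Var

/-!
# Ax's theorem for functions of several variables: statements of the parts

The theorems of the starting library on analytic curves (`Y776.Cv.fix_sub`, `Y776.Cv.var_sub`) are applied to the
restrictions of the functions to a general line.
-/

set_option autoImplicit false

namespace Pool.Agent.N207.AX

/-- the functions `f i` are algebraically independent over the field of the rational functions of the coordinates -/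
def Ind {X σ : Type} (U : Set (X → ℂ)) (f : σ → (X → ℂ) → ℂ) : Prop :=
  ∀ p : MvPolynomial σ (MvPolynomial X ℂ),
    (∀ z ∈ U, p.eval₂ (MvPolynomial.eval z) (fun i => f i z) = 0) → p = 0

/-- **LINE.** A line through a point of `U` on which none of countably many nonzero functions `h i` is zero at the
point, and none of countably many nonconstant functions `k i` has derivative zero at the point. -/
def StmLine : Prop := ∀ (X ι κ : Type) [Fintype X] [Countable ι] [Countable κ] (U : Set (X → ℂ)), IsOpen U →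
  IsPreconnected U → U.Nonempty → ∀ (h : ι → (X → ℂ) → ℂ) (k : κ → (X → ℂ) → ℂ),
  (∀ i, AnalyticOnNhd ℂ (h i) U) → (∀ i, AnalyticOnNhd ℂ (k i) U) →
  (∀ i, ∃ z ∈ U, h i z ≠ 0) → (∀ i c, ∃ z ∈ U, k i z ≠ c) →
  ∃ x ∈ U, ∃ v : X → ℂ, (∀ i, h i x ≠ 0) ∧ ∀ i, deriv (fun τ : ℂ => k i (x + τ • v)) 0 ≠ 0

/-- **IND.** Functions which have `r` independent ones among them on general lines, have `r` independent ones among
them. -/
def StmInd : Prop := ∀ (X N ι κ : Type) [Fintype X] [Finite N] [Countable ι] [Countable κ] (r : ℕ) (U : Set (X → ℂ)),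
  IsOpen U → IsPreconnected U → U.Nonempty → ∀ (f : N → (X → ℂ) → ℂ), (∀ i, AnalyticOnNhd ℂ (f i) U) →
  ∀ (h : ι → (X → ℂ) → ℂ) (k : κ → (X → ℂ) → ℂ), (∀ i, AnalyticOnNhd ℂ (h i) U) → (∀ i, AnalyticOnNhd ℂ (k i) U) →
  (∀ i, ∃ z ∈ U, h i z ≠ 0) → (∀ i c, ∃ z ∈ U, k i z ≠ c) →
  (∀ x ∈ U, ∀ v : X → ℂ, ∀ D : Set ℂ, IsOpen D → IsPreconnected D → (0 : ℂ) ∈ D → (∀ τ ∈ D, x + τ • v ∈ U) →
    (∀ i, h i x ≠ 0) → (∀ i, deriv (fun τ : ℂ => k i (x + τ • v)) 0 ≠ 0) →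
      ∃ e : Fin r → N, Function.Injective e ∧ Y124.LocInd (fun j (τ : ℂ) => f (e j) (x + τ • v)) 0) →
  ∃ e : Fin r → N, Function.Injective e ∧ Ind U (fun j => f (e j))

/-- the functions `l_k`, `exp(l_k)`, `u_i`, `ζ(u_i)`, `℘(u_i)` -/
noncomputable def ye {E : Type} {n s q : ℕ} (Λ : Fin q → PeriodPair) (ty : Fin n → Fin q) (u : Fin n → E → ℂ)
    (l : Fin s → E → ℂ) : Y776.Cv.Nf n s → E → ℂ :=
  Sum.elim l (Sum.elim (fun k z => Complex.exp (l k z)) (Sum.elim u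
    (Sum.elim (fun i z => H667R3.zeta (Λ (ty i)) (u i z)) fun i z => (Λ (ty i)).weierstrassP (u i z))))

/-- **ELL.** Ax's theorem for elliptic curves and exponentials, functions of several variables. -/
def StmEll : Prop := ∀ (X : Type) [Fintype X] (q n s : ℕ) (U : Set (X → ℂ)) (Λ : Fin q → PeriodPair)
  (ty : Fin n → Fin q) (u : Fin n → (X → ℂ) → ℂ) (l : Fin s → (X → ℂ) → ℂ), IsOpen U → IsPreconnected U →
  U.Nonempty → (∀ c c', c ≠ c' → TH813.G.NoHom (Λ c) (Λ c')) → (∀ i, AnalyticOnNhd ℂ (u i) U) →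
  (∀ i, ∀ z ∈ U, u i z ∉ (Λ (ty i)).lattice) →
  (∀ (c : Fin q) (a : Fin n → ℂ) (b : ℂ), (∀ i, ∀ w ∈ (Λ c).lattice, a i * w ∈ (Λ c).lattice) →
    (∀ i, ty i ≠ c → a i = 0) → (∀ z ∈ U, ∑ i, a i * u i z = b) → a = 0) →
  (∀ k, AnalyticOnNhd ℂ (l k) U) →
  (∀ (m : Fin s → ℤ) (b : ℂ), (∀ z ∈ U, ∑ k, (m k : ℂ) * l k z = b) → m = 0) →
  ∃ e : Fin (s + 2 * n) → Y776.Cv.Nf n s, Function.Injective e ∧ Ind U (fun k => ye Λ ty u l (e k))

/-- the functions `ω₁, ω₂, η₁, g₂, g₃`, `u_i`, `ζ(u_i)`, `℘(u_i)`, `l_k`, `exp(l_k)` -/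
noncomputable def yw {E : Type} {r s : ℕ} (Λ : E → PeriodPair) (u : Fin r → E → ℂ) (l : Fin s → E → ℂ) :
    Y776.Cv.Nv r s → E → ℂ :=
  Sum.elim (fun j z => ![(Λ z).ω₁, (Λ z).ω₂, H667R3.eta (Λ z) (Λ z).ω₁, (Λ z).g₂, (Λ z).g₃] j)
    (Sum.elim u (Sum.elim (fun i z => H667R3.zeta (Λ z) (u i z))
      (Sum.elim (fun i z => (Λ z).weierstrassP (u i z)) (Sum.elim l fun k z => Complex.exp (l k z)))))

/-- **VAR.** The theorem for families of lattices, functions of several variables. -/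
def StmVar : Prop := ∀ (X : Type) [Fintype X] (r s : ℕ) (U : Set (X → ℂ)) (Λ : (X → ℂ) → PeriodPair)
  (u : Fin r → (X → ℂ) → ℂ) (l : Fin s → (X → ℂ) → ℂ), IsOpen U → IsPreconnected U → U.Nonempty →
  AnalyticOnNhd ℂ (fun z => (Λ z).ω₁) U → AnalyticOnNhd ℂ (fun z => (Λ z).ω₂) U →
  (∀ c : ℂ, ∃ z ∈ U, (Λ z).ω₂ / (Λ z).ω₁ ≠ c) → (∀ i, AnalyticOnNhd ℂ (u i) U) →
  (∀ i, ∀ z ∈ U, u i z ∉ (Λ z).lattice) →
  (∀ m : Fin r → ℤ, (∀ z ∈ U, ∑ i, (m i : ℂ) * u i z ∈ (Λ z).lattice) → m = 0) →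
  (∀ k, AnalyticOnNhd ℂ (l k) U) →
  (∀ (m : Fin s → ℤ) (b : ℂ), (∀ z ∈ U, ∑ k, (m k : ℂ) * l k z = b) → m = 0) →
  ∃ e : Fin (3 + (s + 2 * r)) → Y776.Cv.Nv r s, Function.Injective e ∧ Ind U (fun k => yw Λ u l (e k))

end Pool.Agent.N207.AX
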