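import Pool.Agent.N207.AX.Stm
import Pool.Agent.Y776.AxJ.Fun

/-!
# The Ax-Schanuel theorem for the modular function in several variables: statements of the parts
-/

set_option autoImplicit false

open Topology

namespace Pool.Agent.N207.AX

/-- **INDV.** Functions which have `r` independent ones among them on general lines, have `r` independent ones among
them; general lines are given by the nonvanishing of countably many functions of the point and the direction. -/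
def StmIndV : Prop := ∀ (X N ι : Type) [Fintype X] [Finite N] [Countable ι] (r : ℕ) (U : Set (X → ℂ)),
  IsOpen U → IsPreconnected U → U.Nonempty → ∀ (f : N → (X → ℂ) → ℂ), (∀ i, AnalyticOnNhd ℂ (f i) U) →
  ∀ (h : ι → (X → ℂ) × (X → ℂ) → ℂ), (∀ i, AnalyticOnNhd ℂ (h i) (U ×ˢ Set.univ)) →
  (∀ i, ∃ z ∈ U, ∃ v : X → ℂ, h i (z, v) ≠ 0) →
  (∀ x ∈ U, ∀ v : X → ℂ, ∀ D : Set ℂ, IsOpen D → IsPreconnected D → (0 : ℂ) ∈ D → (∀ τ ∈ D, x + τ • v ∈ U) →
    (∀ i, h i (x, v) ≠ 0) →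
      ∃ e : Fin r → N, Function.Injective e ∧ Y124.LocInd (fun j (τ : ℂ) => f (e j) (x + τ • v)) 0) →
  ∃ e : Fin r → N, Function.Injective e ∧ Ind U (fun j => f (e j))

/-- the functions `τ_i`, `j(τ_i)`, `j'(τ_i)`, `j''(τ_i)`, `w_k`, `exp(w_k)` -/
noncomputable def ym {E : Type} {p s : ℕ} (τ : Fin p → E → ℂ) (w : Fin s → E → ℂ) : Y776.AxJ.Nj p s → E → ℂ :=
  Sum.elim (fun q z => Y776.AxJ.b4 q.2 (τ q.1 z)) (Sum.elim w fun k z => Complex.exp (w k z))

/-- **MOD.** The theorem on the modular function, functions of several variables; for `i ≠ k` the functions `j(τ_i)` and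
`j(τ_k)` are algebraically independent over the complex numbers on some line. -/
def StmMod : Prop := ∀ (X : Type) [Fintype X] (p s : ℕ) (U : Set (X → ℂ)) (τ : Fin p → (X → ℂ) → ℂ)
  (w : Fin s → (X → ℂ) → ℂ), 0 < p → IsOpen U → IsPreconnected U → U.Nonempty →
  (∀ i, AnalyticOnNhd ℂ (τ i) U) → (∀ i, ∀ z ∈ U, 0 < (τ i z).im) → (∀ i c, ∃ z ∈ U, τ i z ≠ c) →
  (∀ i k, i ≠ k → ∃ x ∈ U, ∃ v : X → ℂ, ∀ P : MvPolynomial (Fin 2) ℂ,
    (∀ᶠ t : ℂ in 𝓝 0, MvPolynomial.eval ![Y776.jf (τ i (x + t • v)), Y776.jf (τ k (x + t • v))] P = 0) → P = 0) →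
  (∀ k, AnalyticOnNhd ℂ (w k) U) →
  (∀ (m : Fin s → ℤ) (b : ℂ), (∀ z ∈ U, ∑ k, (m k : ℂ) * w k z = b) → m = 0) →
  ∃ e : Fin (3 * p + s) → Y776.AxJ.Nj p s, Function.Injective e ∧ Ind U (fun k => ym τ w (e k))

end Pool.Agent.N207.AX
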